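import Pool.Agent.Helper75.FU.StM

/-!
# Project FU, module M7: from subalgebras of a polynomial ring to monoid algebras
-/

set_option autoImplicit false

namespace Pool.Agent.Helper78.FU

open Pool.Agent.Helper91.GU Pool.Agent.Helper75.FU

universe u

section

variable {R : Type u} [CommRing R] {n : ℕ}

/-- all monomials of `b` lie in `A` -/
def PM (A : Subalgebra R (MvPolynomial (Fin n) R)) (b : MvPolynomial (Fin n) R) : Prop :=
  ∀ m ∈ b.support, MvPolynomial.monomial m (1 : R) ∈ A

lemma pm_one (A : Subalgebra R (MvPolynomial (Fin n) R)) : PM A 1 := by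
  intro m hm
  have h : m ∈ ({0} : Finset (Fin n →₀ ℕ)) := MvPolynomial.support_monomial_subset hm
  rw [Finset.mem_singleton] at h
  subst h
  exact A.one_mem

lemma pm_mul {A : Subalgebra R (MvPolynomial (Fin n) R)} {b c : MvPolynomial (Fin n) R}
    (hb : PM A b) (hc : PM A c) : PM A (b * c) := by
  classical
  intro m hm
  have h := MvPolynomial.support_mul b c hm
  rw [Finset.mem_add] at h
  obtain ⟨x, hx, y, hy, rfl⟩ := h
  have h2 := A.mul_mem (hb x hx) (hc y hy)
  rwa [MvPolynomial.monomial_mul, one_mul] at h2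

lemma pm_pow {A : Subalgebra R (MvPolynomial (Fin n) R)} {b : MvPolynomial (Fin n) R}
    (hb : PM A b) (j : ℕ) : PM A (b ^ j) := by
  induction j with
  | zero => rw [pow_zero]; exact pm_one A
  | succ j ih => rw [pow_succ]; exact pm_mul ih hb

lemma pm_pow_le {A : Subalgebra R (MvPolynomial (Fin n) R)} {b : MvPolynomial (Fin n) R} {p e : ℕ}
    (hb : PM A (b ^ p ^ e)) {e' : ℕ} (he : e ≤ e') : PM A (b ^ p ^ e') := by
  obtain ⟨d, rfl⟩ := Nat.exists_eq_add_of_le he
  rw [pow_add, pow_mul]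
  exact pm_pow hb _

end

lemma clos_comb {n k : ℕ} (g : Fin k → (Fin n →₀ ℕ)) (x : Fin n →₀ ℕ)
    (hx : x ∈ AddSubmonoid.closure (Set.range g)) : ∃ a : Fin k → ℕ, x = ∑ i, a i • g i := by
  induction hx using AddSubmonoid.closure_induction with
  | mem x hx =>
    obtain ⟨i, rfl⟩ := hx
    refine ⟨Pi.single i 1, ?_⟩
    rw [Finset.sum_eq_single i]
    · simp
    · intro j _ hj
      simp [hj]
    · simp
  | zero => exact ⟨0, by simp⟩
  | add x y _ _ ihx ihy =>
    obtain ⟨a, ha⟩ := ihx
    obtain ⟨b, hb⟩ := ihy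
    refine ⟨a + b, ?_⟩
    simp only [Pi.add_apply, add_smul, Finset.sum_add_distrib]
    rw [← ha, ← hb]

lemma comb_uniq {n k : ℕ} (g : Fin k → (Fin n →₀ ℕ))
    (hlin : LinearIndependent ℚ (fun (i : Fin k) (j : Fin n) => ((g i j : ℕ) : ℚ)))
    (a b : Fin k → ℕ) (h : ∑ i, a i • g i = ∑ i, b i • g i) : a = b := by
  rw [Fintype.linearIndependent_iff] at hlin
  funext i
  have h1 := hlin (fun i => (a i : ℚ) - (b i : ℚ)) (by
    funext j
    have h2 := DFunLike.congr_fun h j
    simp only [Finsupp.coe_finsetSum, Finset.sum_apply, Finsupp.smul_apply, smul_eq_mul] at h2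
    have h3 : (∑ i, (a i : ℚ) * (g i j : ℚ)) = ∑ i, (b i : ℚ) * (g i j : ℚ) := by
      exact_mod_cast h2
    simp only [Finset.sum_apply, Pi.smul_apply, smul_eq_mul, Pi.zero_apply]
    simp only [sub_mul, Finset.sum_sub_distrib]
    rw [h3, sub_self]) i
  have h4 : (a i : ℚ) = (b i : ℚ) := by
    linarith
  exact_mod_cast h4

theorem hM7 (hB7 : Pool.Agent.Helper91.GU.StB7.{u}) (hG5 : StG5.{u}) (hM6 : StM6.{u}) :
    StM7.{u} := by
  classical
  intro p s n hp hs hsp R _ _ _ _ hdim A hPM hSi v hv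
  have : Fact p.Prime := ⟨hp⟩
  obtain ⟨w, hvw⟩ := hv
  -- the exponent e₀
  have hex : ∀ a : A, ∃ e : ℕ, PM A ((a : MvPolynomial (Fin n) R) ^ p ^ e) := fun a =>
    hPM a a.2
  choose ex hexp using hex
  obtain ⟨e0, he0⟩ : ∃ e0 : ℕ, ∀ l, ex (v l) ≤ e0 ∧ ex (w l) ≤ e0 := by
    refine ⟨Finset.univ.sup (fun l => max (ex (v l)) (ex (w l))), fun l => ?_⟩
    have h := Finset.le_sup (f := fun l => max (ex (v l)) (ex (w l))) (Finset.mem_univ l)
    exact ⟨le_trans (le_max_left _ _) h, le_trans (le_max_right _ _) h⟩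
  obtain ⟨e, hee, hvq⟩ := hG5 A p s hp hsp hs v ⟨w, hvw⟩ e0
  set q := p ^ e with hq
  have hpv : ∀ l, PM A ((v l : MvPolynomial (Fin n) R) ^ q) := fun l =>
    pm_pow_le (hexp (v l)) (le_trans (he0 l).1 hee)
  have hpw : ∀ l, PM A ((w l : MvPolynomial (Fin n) R) ^ q) := fun l =>
    pm_pow_le (hexp (w l)) (le_trans (he0 l).2 hee)
  -- the product of the powers
  have hprod : ∑ l, (v l : MvPolynomial (Fin n) R) ^ q * (w l : MvPolynomial (Fin n) R) ^ q = 1 := by
    have h1 : ∑ l, (v l : MvPolynomial (Fin n) R) * (w l : MvPolynomial (Fin n) R) = 1 := by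
      have h2 := congrArg (fun x : A => (x : MvPolynomial (Fin n) R)) hvw
      simpa [dotProduct] using h2
    have h3 : (∑ l, (v l : MvPolynomial (Fin n) R) * (w l : MvPolynomial (Fin n) R)) ^ q
        = 1 ^ q := by rw [h1]
    rw [hq, sum_pow_char_pow, one_pow] at h3
    rw [← h3]
    apply Finset.sum_congr rfl
    intro l _
    rw [mul_pow]
  -- the finite set of exponents and the simplicial cone
  set K : Finset (Fin n →₀ ℕ) := Finset.univ.biUnion (fun l : Unit ⊕ Fin (s + 1) =>
    ((v l : MvPolynomial (Fin n) R) ^ q).support ∪ ((w l : MvPolynomial (Fin n) R) ^ q).support)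
    with hK
  have hKA : ∀ m ∈ K, MvPolynomial.monomial m (1 : R) ∈ A := by
    intro m hm
    rw [hK, Finset.mem_biUnion] at hm
    obtain ⟨l, -, hl⟩ := hm
    rw [Finset.mem_union] at hl
    rcases hl with hl | hl
    · exact hpv l m hl
    · exact hpw l m hl
  have hKv : ∀ l, ∀ m ∈ ((v l : MvPolynomial (Fin n) R) ^ q).support, m ∈ K := by
    intro l m hm
    rw [hK, Finset.mem_biUnion]
    exact ⟨l, Finset.mem_univ _, Finset.mem_union_left _ hm⟩
  have hKw : ∀ l, ∀ m ∈ ((w l : MvPolynomial (Fin n) R) ^ q).support, m ∈ K := by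
    intro l m hm
    rw [hK, Finset.mem_biUnion]
    exact ⟨l, Finset.mem_univ _, Finset.mem_union_right _ hm⟩
  obtain ⟨k, g, hgA, hlin, hc⟩ := hSi K hKA
  choose! c hc1 hc2 using hc
  set D : ℕ := ∏ m ∈ K, c m with hD
  have hD0 : 0 < D := Finset.prod_pos fun m hm => hc1 m hm
  set N : AddSubmonoid (Fin n →₀ ℕ) :=
    AddSubmonoid.closure ((K : Set (Fin n →₀ ℕ)) ∪ Set.range g) with hN
  have hKN : ∀ m ∈ K, m ∈ N := fun m hm =>
    AddSubmonoid.subset_closure (Or.inl hm)
  have hgN : ∀ i, g i ∈ N := fun i => AddSubmonoid.subset_closure (Or.inr ⟨i, rfl⟩)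
  have hNA : ∀ m ∈ N, MvPolynomial.monomial m (1 : R) ∈ A := by
    intro m hm
    induction hm using AddSubmonoid.closure_induction with
    | mem x hx =>
      rcases hx with hx | ⟨i, rfl⟩
      · exact hKA x hx
      · exact hgA i
    | zero => exact A.one_mem
    | add x y _ _ ihx ihy =>
      have h2 := A.mul_mem ihx ihy
      rwa [MvPolynomial.monomial_mul, one_mul] at h2
  have hND : ∀ m ∈ N, D • m ∈ AddSubmonoid.closure (Set.range g) := by
    intro m hm
    induction hm using AddSubmonoid.closure_induction with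
    | mem x hx =>
      rcases hx with hx | ⟨i, rfl⟩
      · have h1 : D = (∏ m ∈ K.erase x, c m) * c x := by
          rw [hD, Finset.prod_erase_mul _ _ hx]
        rw [h1, mul_smul]
        exact AddSubmonoid.nsmul_mem _ (hc2 x hx) _
      · exact AddSubmonoid.nsmul_mem _ (AddSubmonoid.subset_closure (Set.mem_range_self i)) _
    | zero => rw [smul_zero]; exact AddSubmonoid.zero_mem _
    | add x y _ _ ihx ihy =>
      rw [smul_add]
      exact AddSubmonoid.add_mem _ ihx ihy
  have hNa : ∀ m : N, ∃ a : Fin k → ℕ, D • (m : Fin n →₀ ℕ) = ∑ i, a i • g i := fun m =>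
    clos_comb g _ (hND m m.2)
  choose a ha using hNa
  let L : N →+ (Fin k → ℕ) :=
    { toFun := a
      map_zero' := by
        apply comb_uniq g hlin
        rw [← ha]
        simp
      map_add' := by
        intro x y
        apply comb_uniq g hlin
        rw [← ha]
        simp only [Pi.add_apply, add_smul, Finset.sum_add_distrib]
        rw [← ha, ← ha, ← smul_add]
        rfl }
  have hLinj : Function.Injective L := by
    intro x y hxy
    have h1 : a x = a y := hxy
    have h2 : D • (x : Fin n →₀ ℕ) = D • (y : Fin n →₀ ℕ) := by rw [ha, ha, h1]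
    apply Subtype.ext
    ext j
    have h3 := DFunLike.congr_fun h2 j
    simp only [Finsupp.smul_apply, smul_eq_mul] at h3
    exact Nat.eq_of_mul_eq_mul_left hD0 h3
  have hLg : ∀ i, ∃ x : N, L x = Pi.single i D := by
    intro i
    refine ⟨⟨g i, hgN i⟩, ?_⟩
    show a ⟨g i, hgN i⟩ = Pi.single i D
    apply comb_uniq g hlin
    rw [← ha]
    rw [Finset.sum_eq_single i]
    · simp
    · intro j _ hj
      simp [hj]
    · simp
  -- the monoid algebra
  have hinj : Function.Injective (N.subtype) := Subtype.val_injective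
  let ι₀ : AddMonoidAlgebra R N →+* MvPolynomial (Fin n) R :=
    AddMonoidAlgebra.mapDomainRingHom R N.subtype
  have hι₀ : Function.Injective ι₀ := AddMonoidAlgebra.mapDomain_injective hinj
  have hιA : ∀ x, ι₀ x ∈ A := by
    intro x
    induction x using AddMonoidAlgebra.induction_on with
    | of m =>
      have h1 : ι₀ (AddMonoidAlgebra.of R N (Multiplicative.ofAdd m))
          = MvPolynomial.monomial (m : Fin n →₀ ℕ) 1 := by
        simp [ι₀, MvPolynomial.monomial]
      rw [h1]
      exact hNA _ m.2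
    | add x y hx hy => rw [map_add]; exact A.add_mem hx hy
    | smul r x hx =>
      have h1 : ι₀ (r • x) = r • ι₀ x := by
        rw [Algebra.smul_def, Algebra.smul_def, map_mul]
        congr 1
        simp [ι₀]
        rfl
      rw [h1]
      exact A.smul_mem hx r
  let ι : AddMonoidAlgebra R N →+* A := ι₀.codRestrict A hιA
  have hsurj : ∀ b : MvPolynomial (Fin n) R, (∀ m ∈ b.support, m ∈ K) → ∃ b', ι₀ b' = b := by
    intro b hb
    refine ⟨AddMonoidAlgebra.comapDomain N.subtype hinj b, ?_⟩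
    apply AddMonoidAlgebra.mapDomain_comapDomain
    intro m hm
    exact ⟨⟨m, hKN m (hb m hm)⟩, rfl⟩
  choose! inv hinv using hsurj
  let v' : Unit ⊕ Fin (s + 1) → AddMonoidAlgebra R N := fun l =>
    inv ((v l : MvPolynomial (Fin n) R) ^ q)
  let w' : Unit ⊕ Fin (s + 1) → AddMonoidAlgebra R N := fun l =>
    inv ((w l : MvPolynomial (Fin n) R) ^ q)
  have hv' : ∀ l, ι₀ (v' l) = (v l : MvPolynomial (Fin n) R) ^ q := fun l => hinv _ (hKv l)
  have hw' : ∀ l, ι₀ (w' l) = (w l : MvPolynomial (Fin n) R) ^ q := fun l => hinv _ (hKw l)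
  have hum : Um v' := by
    refine ⟨w', ?_⟩
    apply hι₀
    rw [dotProduct, map_sum, map_one, ← hprod]
    apply Finset.sum_congr rfl
    intro l _
    rw [map_mul, hv', hw']
  have hREq := hM6 p s k hp hs hsp R hdim N L hLinj D hD0 hLg v' hum
  obtain ⟨hB, -⟩ := hB7 (AddMonoidAlgebra R N) A ι
  obtain ⟨-, -, -, -, -, hmp, -⟩ := hB (Unit ⊕ Fin (s + 1))
  have h1 := hmp _ _ hREq
  have h2 : mp ι v' = fun j => v j ^ q := by
    funext l
    apply Subtype.ext
    show ι₀ (v' l) = _
    rw [hv']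
    simp
  have h3 : mp ι (row 1 0 : Unit ⊕ Fin (s + 1) → AddMonoidAlgebra R N) = row 1 0 := by
    funext l
    rcases l with l | l
    · simp [mp, row]
    · simp [mp, row]
  rw [h2, h3] at h1
  obtain ⟨hB', -⟩ := hB7 A A (RingHom.id A)
  obtain ⟨-, -, htrans, -, -, -, -⟩ := hB' (Unit ⊕ Fin (s + 1))
  exact htrans _ _ _ hvq h1

end Pool.Agent.Helper78.FU
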